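import Pool.Agent.Work.MP_394e0d_co.Main

namespace Pool.Agent.Work.MP_394e0d_co.Parked.Existence

open Pool.Agent.Work.MP_394e0d_co

/-- For every prime power `q > 2` there is a `((q+1) × q², q(q+1))`-triple array. -/
theorem result (q : ℕ) (hq : IsPrimePow q) (h2 : 2 < q) :
    ∃ A : Fin (q + 1) → Fin (q ^ 2) → Fin (q * (q + 1)), IsTripleArray A :=
  main q hq h2

end Pool.Agent.Work.MP_394e0d_co.Parked.Existence
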